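import Pool.Agent.Lib.MP_ea20df_gt.Oxtoby

/-!
Countably compact open pseudobases in locally pseudocompact spaces in which every nonempty open set
contains a nonempty open set of `π`-weight at most continuum.
-/

open Set TopologicalSpace Cardinal

namespace Pool.Agent.Results.MP_ea20df_gt.PiWeightContinuum

open Pool.Agent.Lib.MP_ea20df_gt

universe u

theorem result (X : Type u) [TopologicalSpace X] [T35Space X] (hloc : LocallyPseudocompact X)
    (hπ : ∀ U : Set X, IsOpen U → U.Nonempty → ∃ V : Set X, IsOpen V ∧ V.Nonempty ∧ V ⊆ U ∧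
      ∃ P : Set (Set X), SmallPiBase V P) : OxtobyCC X :=
  oxtoby_of_small hloc hπ

end Pool.Agent.Results.MP_ea20df_gt.PiWeightContinuum
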