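import Pool.Agent.Lib.MP_ea20df_gt.Product

/-!
Countably compact bases in locally pseudocompact spaces of weight at most continuum, in products
of such spaces, and in the subspaces of these products which meet every nonempty `G_δ`-set.
-/

open Set TopologicalSpace Cardinal

namespace Pool.Agent.Results.MP_ea20df_gt.WeightContinuum

open Pool.Agent.Lib.MP_ea20df_gt

universe u v

theorem result {ι : Type u} (X : ι → Type v) [∀ i, TopologicalSpace (X i)] [∀ i, T35Space (X i)]
    (hloc : ∀ i, LocallyPseudocompact (X i))
    (hw : ∀ i, ∃ W : Set (Set (X i)), IsTopologicalBasis W ∧ #W ≤ 𝔠)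
    (Y : Set (∀ i, X i))
    (hY : ∀ G : Set (∀ i, X i), IsGδ G → G.Nonempty → (G ∩ Y).Nonempty) : TelgarskyCC Y := by
  choose B hB hne hco hcc using fun i => exists_good_base (hloc i) (hw i)
  exact product_telgarsky B hB hne hco hcc Y hY

end Pool.Agent.Results.MP_ea20df_gt.WeightContinuum
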